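import Pool.Agent.H23.CMC.Targets
import Pool.Agent.H29.DW.Base
import Pool.Agent.H26.BG.DU

/-!
# Stage 2, row G_FE: the functional equation of the L-functions of the family
-/

set_option autoImplicit false

open NumberField MeasureTheory Set Filter Complex
open scoped nonZeroDivisors Real
open Pool.Agent.H23.CMC
open Pool.Agent.H65.CM4 (Sq nm dg Pl rv)
open Pool.Agent.H65.CMC (Emb ty PrTo IsHk ms IsLk gg GM cG Km Idx cdc Fmc lc)
open Pool.Agent.H23.CM4 (nJ Jd Nr wB)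
open Pool.Agent.H23.LC (HG ag)

namespace Pool.Agent.H77.CMC

/-- nonzero ideals -/
def eqvI (K : Type) [Field K] [NumberField K] : (Ideal (𝓞 K))⁰ ≃ {I : Ideal (𝓞 K) // I ≠ ⊥} :=
  Equiv.subtypeEquivRight fun I => by
    rw [mem_nonZeroDivisors_iff_ne_zero]
    rfl

theorem norm_psi_le {K : Type} [Field K] [NumberField K] {F : Ideal (𝓞 K)} (χ : HG K F)
    (I : Ideal (𝓞 K)) : ‖χ.ψ I‖ ≤ 1 := by
  by_cases h0 : I = ⊥
  · rw [h0, χ.map_bot, norm_zero]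
    exact zero_le_one
  · by_cases h1 : I ⊔ F = ⊤
    · exact (χ.norm_one I h0 h1).le
    · rw [χ.eq_zero I h1, norm_zero]
      exact zero_le_one

/-- reindexing a Dirichlet series -/
theorem hasSum_ideals {K : Type} [Field K] [NumberField K] (a : Ideal (𝓞 K) → ℂ)
    (ha : ∀ I, ‖a I‖ ≤ 1) (s : ℂ) (hs : 1 < s.re) :
    HasSum (fun J : (Ideal (𝓞 K))⁰ => a (J : Ideal (𝓞 K)) * (nJ J : ℂ) ^ (-s))
      (∑' I : {I : Ideal (𝓞 K) // I ≠ ⊥}, a I.1 * (Ideal.absNorm I.1 : ℂ) ^ (-s)) := by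
  have hsum : Summable fun I : {I : Ideal (𝓞 K) // I ≠ ⊥} =>
      a I.1 * (Ideal.absNorm I.1 : ℂ) ^ (-s) := by
    refine Summable.of_norm_bounded (Pool.Agent.H63.HK.ds K s hs).1 fun I => ?_
    rw [norm_mul]
    calc _ ≤ 1 * ‖(Ideal.absNorm I.1 : ℂ) ^ (-s)‖ :=
          mul_le_mul_of_nonneg_right (ha _) (norm_nonneg _)
      _ = _ := one_mul _
  have h := (eqvI K).hasSum_iff.2 hsum.hasSum
  refine h.congr_fun ?_
  intro J
  simp only [Function.comp]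
  unfold nJ
  push_cast
  rfl

/-- the Gamma factor of the library -/
theorem gG_eq {k : Type} [Field k] [NumberField k] [IsTotallyReal k] {K : Type} [Field K]
    [NumberField K] [Algebra k K]
    (hb : Function.Bijective (fun w : InfinitePlace K => w.comap (algebraMap k K)))
    (hc : ∀ w : InfinitePlace K, w.IsComplex) (m : Pl k → ℤ) (κ : InfinitePlace K → ℤ)
    (hκ : ∀ w : InfinitePlace K, |κ w| = 2 * |m (w.comap (algebraMap k K))|) (s : ℂ) :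
    Pool.Agent.H23.LC.gG K κ 0 s =
      (∏ v : Pl k, 2 * (2 * (π : ℂ)) ^ (-((|m v| : ℤ) : ℂ))) * gM m s := by
  have h2pi : (2 * (π : ℂ)) ≠ 0 := mul_ne_zero two_ne_zero (ofReal_ne_zero.2 Real.pi_ne_zero)
  unfold Pool.Agent.H23.LC.gG gM
  rw [← Finset.prod_mul_distrib, ← hb.prod_comp]
  refine Finset.prod_congr rfl fun w _ => ?_
  have hr : ¬ w.IsReal := InfinitePlace.not_isReal_iff_isComplex.2 (hc w)
  rw [if_neg hr]
  have h1 : (|((κ w : ℤ) : ℝ)| : ℝ) = 2 * ((|m (w.comap (algebraMap k K))| : ℤ) : ℝ) := by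
    rw [← Int.cast_abs, hκ w]
    push_cast
    rfl
  have h2 : s + ((|((κ w : ℤ) : ℝ)| : ℝ) : ℂ) / 2 - (((0 : InfinitePlace K → ℝ) w : ℝ) : ℂ) * I =
      s + ((|m (w.comap (algebraMap k K))| : ℤ) : ℂ) := by
    rw [h1, Pi.zero_apply, Complex.ofReal_mul, Complex.ofReal_ofNat, Complex.ofReal_intCast,
      Complex.ofReal_zero]
    ring
  rw [h2, Gammaℂ_def, neg_add, cpow_add _ _ h2pi]
  ring

theorem pf_FE (hHKG : T_HKG) (hPRM : T_PRM) (hNTV : T_NTV) (hDCX : T_DCX) (hPLB : T_PLB)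
    (_hGMP : T_GMP) : T_FEc := by
  intro k _ _ _ K _ _ _ Φ f m ψ hC
  obtain ⟨χ, hψ, hν, hag, hk⟩ := hHKG k K Φ f m ψ hC
  obtain ⟨-, -, hcond, -⟩ := hDCX k K hC.rk
  obtain ⟨hd1, -, -, hF, -, hdC⟩ := hcond f hC.hk.fne
  obtain ⟨hb, hpl⟩ := hPLB k K hC.rk hC.cx
  have hcx : ∀ w : InfinitePlace K, w.IsComplex := fun w => (hpl Φ hC.emb w).1
  obtain ⟨D⟩ : Nonempty (Pool.Agent.H23.LB.Sys K (fK K f)) :=
    Pool.Agent.H29.THC.Base.c_SY K (fK K f) hF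
  have hph : ∀ a : K, Pool.Agent.H23.LB.ph χ.ν a = 1 := by
    intro a
    unfold Pool.Agent.H23.LB.ph
    rw [hν]
    simp
  have hPr : Pool.Agent.H29.DW.PrG (fK K f) χ := by
    intro P hP hle
    obtain ⟨a, ha0, hcop, hx, hne⟩ := hPRM k K Φ f m ψ hC P hP hle
    refine ⟨a, ha0, hcop, hx, ?_⟩
    have ha0' : (a : K) ≠ 0 := by
      intro h
      exact ha0 (by exact_mod_cast h)
    rw [hψ, hag (a : K) ha0', hph, mul_one]
    exact hne
  obtain ⟨W, hW, hcd⟩ := Pool.Agent.H26.BG.pf_F_DU Pool.Agent.H29.DW.Base.u_AG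
    Pool.Agent.H29.THC.Base.c_PU Pool.Agent.H29.THC.Base.c_ID Pool.Agent.H29.THC.Base.c_DU
    Pool.Agent.H29.THC.Base.c_RX Pool.Agent.H29.THC.Base.c_RR Pool.Agent.H29.DW.Base.u_DC
    K (fK K f) hF D χ hPr
  obtain ⟨L, ⟨hL1, hL2, ⟨E, hE1, hE2, hE3⟩, hL4⟩, hL5⟩ :=
    Pool.Agent.H29.DW.Base.u_FK K (fK K f) hF D χ
  refine ⟨L, E, (-I) ^ Pool.Agent.H23.LC.dk K χ.k * W, ?_, hE1, fun s h0 h1 => ⟨hL2 s h0 h1,
    hE2 s h0 h1⟩, ?_, ?_, hE3, ?_⟩
  · rw [norm_mul, norm_pow, norm_neg, norm_I, one_pow, one_mul]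
    exact hW
  · intro hm
    obtain ⟨I', h1, h2⟩ := hNTV k K Φ f m ψ hC hm
    exact hL5 ⟨I', by rw [hψ]; exact h1, by rw [hψ]; exact h2⟩
  · intro s hs
    have h := hasSum_ideals χ.ψ (norm_psi_le χ) s hs
    rw [hL1 s hs]
    rw [hψ] at h
    have e : χ.series s = ∑' I : {I : Ideal (𝓞 K) // I ≠ ⊥}, ψ I.1 *
        (Ideal.absNorm I.1 : ℂ) ^ (-s) := by
      unfold HG.series
      rw [hψ]
    rw [e]
    exact h
  · intro s hs
    have hs0 : (1 - s) ≠ 0 := by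
      intro h
      have : s = 1 := (sub_eq_zero.1 h).symm
      rw [this, one_re] at hs
      exact lt_irrefl _ hs
    have hs1 : (1 - s) ≠ 1 := by
      intro h
      have : s = 0 := by linear_combination -h
      rw [this, zero_re] at hs
      linarith
    rw [hE2 _ hs0 hs1, hL4 s hs]
    have hser : Pool.Agent.H23.LC.serd D χ s = W * ∑' J : (Ideal (𝓞 K))⁰,
        (starRingEnd ℂ) (cf ψ J) * (nJ J : ℂ) ^ (-s) := by
      have h := (hasSum_ideals (fun J => (starRingEnd ℂ) (χ.ψ J)) (fun J => by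
        rw [RCLike.norm_conj]; exact norm_psi_le χ J) s hs).tsum_eq
      have e2 : ∑' J : (Ideal (𝓞 K))⁰, (starRingEnd ℂ) (cf ψ J) * (nJ J : ℂ) ^ (-s) =
          ∑' J : (Ideal (𝓞 K))⁰, (starRingEnd ℂ) (χ.ψ (J : Ideal (𝓞 K))) * (nJ J : ℂ) ^ (-s) := by
        rw [hψ]
        rfl
      rw [e2, h, ← tsum_mul_left]
      unfold Pool.Agent.H23.LC.serd
      refine tsum_congr fun J => ?_
      rw [hcd J.1 J.2]
      ring
    have hc0 : (∏ v : Pl k, 2 * (2 * (π : ℂ)) ^ (-((|m v| : ℤ) : ℂ))) ≠ 0 := by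
      refine Finset.prod_ne_zero_iff.2 fun v _ => mul_ne_zero two_ne_zero ?_
      rw [cpow_ne_zero_iff]
      exact Or.inl (mul_ne_zero two_ne_zero (ofReal_ne_zero.2 Real.pi_ne_zero))
    have hgf : Pool.Agent.H23.LC.gf χ s = (-I) ^ Pool.Agent.H23.LC.dk K χ.k *
        (dC K f : ℂ) ^ (s - 1 / 2) * (gM m s * (gM m (1 - s))⁻¹) := by
      unfold Pool.Agent.H23.LC.gf
      have e1 : ((|(discr K : ℝ)| * Pool.Agent.H23.LB.Nf K (fK K f) : ℝ) : ℂ) =
          (dC K f : ℂ) := by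
        rw [hdC]
        rfl
      rw [e1, hν, neg_zero, gG_eq hb hcx m χ.k hk s, gG_eq hb hcx m χ.k hk (1 - s), mul_inv]
      field_simp
    rw [hser, hgf]
    ring

end Pool.Agent.H77.CMC
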