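import Pool.Agent.H95.CMC.Targets

/-!
# Stage 2, row F_EJA: an ideal of squarefree norm gives a sublattice of a line
-/

set_option autoImplicit false

open MeasureTheory Set Filter NumberField
open scoped Real nonZeroDivisors
open Pool.Agent.H65.CM4 Pool.Agent.H65.CMC Pool.Agent.H95.CMC
open Pool.Agent.H95.CM (T_CYC)

namespace Pool.Agent.H77.CMC

section

variable {k K : Type} [Field k] [NumberField k] [Field K] [NumberField K] [Algebra k K]

omit [NumberField k] in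
/-- one plus one -/
theorem cop_split (f a : Ideal (𝓞 k)) (h : a ⊔ f = ⊤) :
    ∃ e₁ ∈ f, ∃ e₂ ∈ a, e₁ + e₂ = 1 := by
  have h1 : (1 : 𝓞 k) ∈ a ⊔ f := by rw [h]; trivial
  obtain ⟨y, hy, z, hz, e⟩ := Submodule.mem_sup.1 h1
  exact ⟨z, hz, y, hy, by rw [add_comm]; exact e⟩

omit [NumberField k] [NumberField K] in
theorem mem_ln_of (f : Ideal (𝓞 k)) (I : Ideal (𝓞 K)) (l x : 𝓞 K)
    (hx : x ∈ f.map (algebraMap (𝓞 k) (𝓞 K)) * I) : x ∈ ln f I l := by
  refine ⟨0, ?_⟩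
  rw [map_zero, zero_mul, sub_zero]
  exact hx

omit [NumberField k] [NumberField K] in
theorem mem_inf_iff (Λ : Sl k K) (J : Ideal (𝓞 K)) (x : 𝓞 K) :
    x ∈ Λ ⊓ J.restrictScalars (𝓞 k) ↔ x ∈ Λ ∧ x ∈ J := Iff.rfl

end

theorem pf_EJA (hLNB : T_LNB) (hCYC : T_CYC) : T_EJA := by
  intro k K _ _ _ _ _ _ _ _ f I hf hfI Λ hΛ
  obtain ⟨hl1, -, hl3⟩ := hLNB k K f I hf hfI
  obtain ⟨l0, hl0, -, eΛ⟩ := (hl1 Λ).1 hΛ
  have hI : I ≠ ⊥ := hfI.1
  have hFI : ∀ x ∈ f.map (algebraMap (𝓞 k) (𝓞 K)) * I, x ∈ Λ := by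
    intro x hx
    rw [eΛ]
    exact mem_ln_of f I l0 x hx
  have hFm : ∀ e ∈ f, ∀ x ∈ I, algebraMap (𝓞 k) (𝓞 K) e * x ∈ Λ := fun e he x hx =>
    hFI _ (Ideal.mul_mem_mul (Ideal.mem_map_of_mem _ he) hx)
  refine ⟨?_, ?_⟩
  · intro J hJ hsq hcop
    obtain ⟨hc1, hc2⟩ := hCYC k K J hJ hsq
    obtain ⟨e1, he1, e2, he2, h12⟩ := cop_split f (Ideal.relNorm (𝓞 k) J) hcop
    have h12' : algebraMap (𝓞 k) (𝓞 K) e1 + algebraMap (𝓞 k) (𝓞 K) e2 = 1 := by
      rw [← map_add, h12, map_one]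
    have he2J : algebraMap (𝓞 k) (𝓞 K) e2 ∈ J := (hc2 e2).2 he2
    obtain ⟨g, hg⟩ := IsDedekindDomain.exists_sup_span_eq (I := J * I) (J := I)
      Ideal.mul_le_right (mul_ne_zero hJ hI)
    have hgI : g ∈ I := by
      have : g ∈ J * I ⊔ Ideal.span {g} :=
        (le_sup_right : Ideal.span {g} ≤ J * I ⊔ Ideal.span {g})
          (Ideal.mem_span_singleton_self g)
      rw [hg] at this
      exact this
    obtain ⟨l, hl⟩ : ∃ l, l = algebraMap (𝓞 k) (𝓞 K) e1 * g := ⟨_, rfl⟩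
    have hlΛ : l ∈ Λ := by rw [hl]; exact hFm e1 he1 g hgI
    have hlI : l ∈ I := hl3 Λ hΛ l hlΛ
    have hgl : g - l ∈ J * I := by
      have : g - l = algebraMap (𝓞 k) (𝓞 K) e2 * g := by
        rw [hl]
        calc g - algebraMap (𝓞 k) (𝓞 K) e1 * g = 1 * g - algebraMap (𝓞 k) (𝓞 K) e1 * g := by
              rw [one_mul]
          _ = _ := by rw [← h12']; ring
      rw [this]
      exact Ideal.mul_mem_mul he2J hgI
    have hgen : ∀ x ∈ I, ∃ y : 𝓞 K, x - l * y ∈ J * I := by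
      intro x hx
      rw [← hg] at hx
      obtain ⟨z, hz, w, hw, e⟩ := Submodule.mem_sup.1 hx
      obtain ⟨y, rfl⟩ := Ideal.mem_span_singleton'.1 hw
      refine ⟨y, ?_⟩
      have : x - l * y = z + y * (g - l) := by rw [← e]; ring
      rw [this]
      exact Ideal.add_mem _ hz (Ideal.mul_mem_left _ _ hgl)
    have hcan : ∀ y : 𝓞 K, l * y ∈ J * I → y ∈ J := by
      intro y hy
      have h1 : Ideal.span {y} * I ≤ J * I := by
        rw [Ideal.span_singleton_mul_le_iff]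
        intro x hx
        obtain ⟨t, ht⟩ := hgen x hx
        have : y * x = y * (x - l * t) + t * (l * y) := by ring
        rw [this]
        exact Ideal.add_mem _ (Ideal.mul_mem_left _ _ ht) (Ideal.mul_mem_left _ _ hy)
      have h2 : J * I ∣ Ideal.span {y} * I := Ideal.dvd_iff_le.2 h1
      have h3 : J ∣ Ideal.span {y} := (mul_dvd_mul_iff_right hI).1 h2
      exact Ideal.dvd_span_singleton.1 h3
    refine ⟨inf_le_left, ⟨l, hlΛ, ?_, ?_⟩, ?_⟩
    · intro x hx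
      have hxI : x ∈ I := hl3 Λ hΛ x hx
      obtain ⟨y, hy⟩ := hgen x hxI
      obtain ⟨c, hc⟩ := hc1 y
      refine ⟨c, (mem_inf_iff _ _ _).2 ⟨Λ.sub_mem hx (Λ.smul_mem c hlΛ), ?_⟩⟩
      have : x - c • l = (x - l * y) + (y - algebraMap (𝓞 k) (𝓞 K) c) * l := by
        rw [Algebra.smul_def]; ring
      rw [this]
      exact Ideal.add_mem _ hy (Ideal.mul_mem_mul hc hlI)
    · intro c
      rw [mem_inf_iff]
      constructor
      · rintro ⟨-, h⟩
        rw [Algebra.smul_def, mul_comm _ l] at h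
        exact (hc2 c).1 (hcan _ h)
      · intro h
        refine ⟨Λ.smul_mem c hlΛ, ?_⟩
        rw [Algebra.smul_def]
        exact Ideal.mul_mem_mul ((hc2 c).2 h) hlI
    · intro x hx
      rw [← map_mul, Ideal.relNorm_apply]
      exact Ideal.intNorm_mem_spanNorm (R := 𝓞 k) ((mem_inf_iff _ _ _).1 hx).2
  · have key : ∀ J J' : Ideal (𝓞 K), Ideal.relNorm (𝓞 k) J' ⊔ f = ⊤ →
        Λ ⊓ (J * I).restrictScalars (𝓞 k) = Λ ⊓ (J' * I).restrictScalars (𝓞 k) →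
        J * I ≤ J' * I := by
      intro J J' hcop h x hx
      obtain ⟨e1, he1, e2, he2, h12⟩ := cop_split f (Ideal.relNorm (𝓞 k) J') hcop
      have h12' : algebraMap (𝓞 k) (𝓞 K) e1 + algebraMap (𝓞 k) (𝓞 K) e2 = 1 := by
        rw [← map_add, h12, map_one]
      have he2J : algebraMap (𝓞 k) (𝓞 K) e2 ∈ J' :=
        Ideal.relNorm_le_comap (R := 𝓞 k) J' he2
      have hxI : x ∈ I := Ideal.mul_le_right hx
      have h1 : algebraMap (𝓞 k) (𝓞 K) e1 * x ∈ J' * I := by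
        have h2 : algebraMap (𝓞 k) (𝓞 K) e1 * x ∈ Λ ⊓ (J * I).restrictScalars (𝓞 k) :=
          (mem_inf_iff _ _ _).2 ⟨hFm e1 he1 x hxI, Ideal.mul_mem_left _ _ hx⟩
        rw [h] at h2
        exact ((mem_inf_iff _ _ _).1 h2).2
      have h3 : x = algebraMap (𝓞 k) (𝓞 K) e1 * x + algebraMap (𝓞 k) (𝓞 K) e2 * x := by
        rw [← add_mul, h12', one_mul]
      rw [h3]
      exact Ideal.add_mem _ h1 (Ideal.mul_mem_mul he2J hxI)
    intro J J' _ _ hc hc' h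
    exact mul_right_cancel₀ hI (le_antisymm (key J J' hc' h) (key J' J hc h.symm))

end Pool.Agent.H77.CMC
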