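import Pool.Agent.H89.CMC.Targets2

/-!
# Stage 2, row E_ECB: the bound of the Epstein zeta functions with the angular factor
-/

set_option autoImplicit false

open MeasureTheory Set Filter NumberField NumberField.InfinitePlace
open Pool.Agent.H65.CM4 Pool.Agent.H65.CMC Pool.Agent.H89.CM4 Pool.Agent.H89.CMC
open scoped Real

namespace Pool.Agent.H77.CMC

theorem weight_le (e c z w : ℝ) (he : 0 ≤ e) (hc : 0 < c) (hc1 : c ≤ 1) (hw : 0 < w)
    (hz : c * w ≤ z) : z ^ (-e) * (1 + z) ^ (-(3 : ℝ)) ≤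
      c ^ (-e) * c ^ (-(3 : ℝ)) * (w ^ (-e) * (1 + w) ^ (-(3 : ℝ))) := by
  have hcw : 0 < c * w := mul_pos hc hw
  have hz0 : 0 < z := lt_of_lt_of_le hcw hz
  have h1 : z ^ (-e) ≤ c ^ (-e) * w ^ (-e) := by
    rw [← Real.mul_rpow hc.le hw.le]
    exact Real.rpow_le_rpow_of_nonpos hcw hz (by linarith)
  have h2 : (1 + z) ^ (-(3 : ℝ)) ≤ c ^ (-(3 : ℝ)) * (1 + w) ^ (-(3 : ℝ)) := by
    rw [← Real.mul_rpow hc.le (by linarith)]
    exact Real.rpow_le_rpow_of_nonpos (by positivity) (by nlinarith) (by norm_num)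
  calc z ^ (-e) * (1 + z) ^ (-(3 : ℝ)) ≤
      (c ^ (-e) * w ^ (-e)) * (c ^ (-(3 : ℝ)) * (1 + w) ^ (-(3 : ℝ))) :=
        mul_le_mul h1 h2 (by positivity) (by positivity)
    _ = _ := by ring

variable (k : Type) [Field k] [NumberField k] [IsTotallyReal k]

theorem nn_pos {r : ℝ} (hr : 0 < r) {u : V2 k} (hu : u ≠ 0) : 0 < nn r u := by
  unfold nn
  refine Finset.prod_pos fun v _ => ?_
  unfold nr
  have hinj : ∀ a : 𝓞 k, a ≠ 0 → rv v (a : k) ≠ 0 := by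
    intro a ha h
    apply ha
    have h1 : (a : k) = 0 := (map_eq_zero (rv v)).1 h
    exact_mod_cast h1
  have h1 : 0 ≤ rv v (u.1 : k) ^ 2 / r := div_nonneg (sq_nonneg _) hr.le
  have h2 : 0 ≤ r * rv v (u.2 : k) ^ 2 := mul_nonneg hr.le (sq_nonneg _)
  by_cases h : u.1 = 0
  · have h3 : u.2 ≠ 0 := by
      intro h4
      exact hu (Prod.ext h h4)
    have h5 : 0 < r * rv v (u.2 : k) ^ 2 := mul_pos hr (pow_pos_of_sq _ (hinj _ h3))
    linarith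
  · have h5 : 0 < rv v (u.1 : k) ^ 2 / r := div_pos (pow_pos_of_sq _ (hinj _ h)) hr
    linarith
where
  pow_pos_of_sq (x : ℝ) (hx : x ≠ 0) : 0 < x ^ 2 := by positivity

open Classical in
/-- one sum -/
theorem one_sum (κ C₁ CK Ca c CL : ℝ) (j : ℕ) (m : Pl k → ℤ) (s : ℂ) (hκ : 0 < κ)
    (hCK : 0 ≤ CK) (hCa : 0 ≤ Ca) (hc : 0 < c) (hc1 : c ≤ 1) (hh : 0 ≤ hm j m s)
    (hK : ∀ r : ℂ, 0 < r.re → 10 * Tm m s * |r.im| ≤ r.re →
      ‖Km m s r‖ ≤ CK * hm j m s * r.re ^ (-(1 / 2 + 2 * κ)) * (1 + r.re) ^ (-(3 : ℝ)))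
    (hL : ∀ (r m : ℝ) (M : La k), 0 < r →
      ix M ≠ 0 → 0 < m → (∀ u ∈ M, ∀ v ∈ M, det u v ≠ 0 → m ≤ C₁ * Nr (det u v : k)) →
      Summable (fun u : V2 k => if u ∈ M ∧ u ∈ Fo k then
        (nn r u / m) ^ (-(1 / 2 + 2 * κ)) * (1 + nn r u / m) ^ (-(3 : ℝ)) else 0) ∧
      ∑' u : V2 k, (if u ∈ M ∧ u ∈ Fo k then
        (nn r u / m) ^ (-(1 / 2 + 2 * κ)) * (1 + nn r u / m) ^ (-(3 : ℝ)) else 0) ≤
        CL * (m / mn r M) ^ (1 / 2 + 2 * κ))
    (r p : ℝ) (M : La k) (z a : V2 k → ℂ) (hr : 0 < r) (hM : ix M ≠ 0)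
    (hp : 0 < p) (hdet : ∀ u ∈ M, ∀ v ∈ M, det u v ≠ 0 → p ≤ C₁ * Nr (det u v : k))
    (hz : ∀ u : V2 k, u ≠ 0 → 0 < (z u).re ∧ 10 * Tm m s * |(z u).im| ≤ (z u).re ∧
      c * (nn r u / p) ≤ (z u).re) (ha : ∀ u : V2 k, u ≠ 0 → ‖a u‖ ≤ Ca) :
    ‖∑' u : V2 k, if u ∈ M ∧ u ∈ Fo k then a u * Km m s (z u) else 0‖ ≤
      Ca * CK * hm j m s * (c ^ (-(1 / 2 + 2 * κ)) * c ^ (-(3 : ℝ))) *
        (CL * (p / mn r M) ^ (1 / 2 + 2 * κ)) := by
  obtain ⟨hsum, hle⟩ := hL r p M hr hM hp hdet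
  set G : V2 k → ℝ := fun u => Ca * CK * hm j m s * (c ^ (-(1 / 2 + 2 * κ)) * c ^ (-(3 : ℝ))) *
    (if u ∈ M ∧ u ∈ Fo k then
        (nn r u / p) ^ (-(1 / 2 + 2 * κ)) * (1 + nn r u / p) ^ (-(3 : ℝ)) else 0) with hG
  have hsG : Summable G := hsum.mul_left _
  have hb : ∀ u : V2 k, ‖(if u ∈ M ∧ u ∈ Fo k then a u * Km m s (z u) else 0 : ℂ)‖ ≤ G u := by
    intro u
    by_cases h : u ∈ M ∧ u ∈ Fo k
    · have hu : u ≠ 0 := h.2.1
      obtain ⟨z1, z2, z3⟩ := hz u hu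
      have hnn : 0 < nn r u := nn_pos k hr hu
      have hw : 0 < nn r u / p := div_pos hnn hp
      have k1 := hK (z u) z1 z2
      have k2 := weight_le (1 / 2 + 2 * κ) c (z u).re (nn r u / p) (by linarith) hc hc1 hw z3
      have k3 : ‖Km m s (z u)‖ ≤ CK * hm j m s * (c ^ (-(1 / 2 + 2 * κ)) * c ^ (-(3 : ℝ)) *
          ((nn r u / p) ^ (-(1 / 2 + 2 * κ)) * (1 + nn r u / p) ^ (-(3 : ℝ)))) :=
        calc ‖Km m s (z u)‖ ≤ CK * hm j m s *
            ((z u).re ^ (-(1 / 2 + 2 * κ)) * (1 + (z u).re) ^ (-(3 : ℝ))) := by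
              rw [← mul_assoc]; exact k1
          _ ≤ _ := mul_le_mul_of_nonneg_left k2 (mul_nonneg hCK hh)
      simp only [hG, if_pos h]
      rw [norm_mul]
      calc ‖a u‖ * ‖Km m s (z u)‖ ≤ Ca * (CK * hm j m s *
            (c ^ (-(1 / 2 + 2 * κ)) * c ^ (-(3 : ℝ)) *
            ((nn r u / p) ^ (-(1 / 2 + 2 * κ)) * (1 + nn r u / p) ^ (-(3 : ℝ))))) :=
            mul_le_mul (ha u hu) k3 (norm_nonneg _) hCa
        _ = _ := by ring
    · simp [hG, h]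
  calc ‖∑' u : V2 k, if u ∈ M ∧ u ∈ Fo k then a u * Km m s (z u) else 0‖ ≤ ∑' u, G u :=
        tsum_of_norm_bounded hsG.hasSum hb
    _ = Ca * CK * hm j m s * (c ^ (-(1 / 2 + 2 * κ)) * c ^ (-(3 : ℝ))) *
        ∑' u : V2 k, (if u ∈ M ∧ u ∈ Fo k then
        (nn r u / p) ^ (-(1 / 2 + 2 * κ)) * (1 + nn r u / p) ^ (-(3 : ℝ)) else 0) := by
          rw [hG, tsum_mul_left]
    _ ≤ _ := mul_le_mul_of_nonneg_left hle (by positivity)

theorem pf_ECBm (hKCB : T_KCBm k) (hQCM : T_QCM k) (hLSM : T_LSM k) (hBIX : T_BIX k)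
    (hDUL : T_DUL k) (hMIN : T_MIN k) (hTMB : T_TMB k) : T_ECBm k := by
  intro B hB
  obtain ⟨K, c, C, hK1, hc, hc1, hC1, hq⟩ := hQCM B hB
  refine ⟨K, hK1, ?_⟩
  intro κ hκ hκ1
  obtain ⟨CK, j, hCK, hKc⟩ := hKCB κ hκ hκ1
  obtain ⟨CD, hCD, hD⟩ := hDUL
  obtain ⟨CL, hCL, hL⟩ := hLSM κ 1 hκ hκ1 le_rfl
  obtain ⟨CL', hCL', hL'⟩ := hLSM κ CD hκ hκ1 hCD
  obtain ⟨CM, hCM, hM⟩ := hMIN
  refine ⟨C * CK * (c ^ (-(1 / 2 + 2 * κ)) * c ^ (-(3 : ℝ))) *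
    (CL + CL' * CD ^ (1 / 2 + 2 * κ)), j, by positivity, ?_⟩
  intro r m M s x y hr hix hs hRg
  obtain ⟨-, -, -, hcG, hTm, hhm⟩ := hTMB m s
  have hht : 0 < hm j m s := hhm j
  have hht' : hm j m (1 - s) = hm j m s := by
    unfold hm
    rw [hTm, hcG]
  have hixp : (0 : ℝ) < ix M := by exact_mod_cast Nat.pos_of_ne_zero hix
  obtain ⟨u0, hu0M, hu0, hu0n, -, -⟩ := hM r M hr hix
  have hmn : 0 < mn r M := by
    rw [← hu0n]
    exact nn_pos k hr hu0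
  obtain ⟨hdix, hD1, hD2⟩ := hD M hix
  obtain ⟨u1, hu1M, hu1, hu1n, -, -⟩ := hM r (du M) hr hdix
  have hmn1 : 0 < mn r (du M) := by
    rw [← hu1n]
    exact nn_pos k hr hu1
  have hdk : (0 : ℝ) < dk k := by
    have : dk k ≠ 0 := by
      unfold dk
      exact Int.natAbs_ne_zero.2 (discr_ne_zero k)
    exact_mod_cast Nat.pos_of_ne_zero this
  set P : ℝ := ((dk k * ix M : ℕ) : ℝ) ^ (2 * dg k) with hP
  have hPp : 0 < P := by
    rw [hP]
    push_cast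
    positivity
  have hs' : |(1 - s).re - 1 / 2| ≤ κ := by
    have : (1 - s).re - 1 / 2 = -(s.re - 1 / 2) := by
      rw [Complex.sub_re, Complex.one_re]; ring
    rw [this, abs_neg]
    exact hs
  have ha : ∀ u : V2 k, u ≠ 0 → ‖an m x y u‖ ≤ C := fun u hu =>
    (hq r m s x y u hr hRg hu).2.2.2.2.1
  -- first sum
  have s1 := one_sum k κ 1 CK C c CL j m s hκ hCK (by linarith) hc hc1 hht.le
    (fun z hz1 hz2 => hKc m s z hs hz1 hz2) hL r (ix M) M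
    (fun u => qn x y u / ix M) (an m x y) hr hix hixp
    (fun u hu v hv h => by rw [one_mul]; exact hBIX.1 M hix u hu v hv h)
    (by
      intro u hu
      obtain ⟨q1, q2, q3, -⟩ := hq r m s x y u hr hRg hu
      have e1 : (qn x y u / (ix M : ℂ)).re = (qn x y u).re / ix M := by
        rw [Complex.div_natCast_re]
      have e2 : (qn x y u / (ix M : ℂ)).im = (qn x y u).im / ix M := by
        rw [Complex.div_natCast_im]
      simp only [e1, e2]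
      refine ⟨div_pos q1 hixp, ?_, ?_⟩
      · rw [abs_div, abs_of_pos hixp, ← mul_div_assoc]
        exact div_le_div_of_nonneg_right q2 hixp.le
      · rw [← mul_div_assoc]
        exact div_le_div_of_nonneg_right q3 hixp.le) ha
  -- second sum
  have hm2 : 0 < P / ix M := div_pos hPp hixp
  have s2 := one_sum k κ CD CK C c CL' j m (1 - s) hκ hCK (by linarith) hc hc1
    (by rw [hht']; exact hht.le)
    (fun z hz1 hz2 => hKc m (1 - s) z hs' hz1 hz2) hL' r (P / ix M) (du M)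
    (fun u => (ix M : ℂ) * qn x y u / ((dk k * ix M : ℕ) : ℂ) ^ (2 * dg k)) (an m x y) hr hdix hm2
    (fun u hu v hv h => by
      rw [div_le_iff₀ hixp]
      calc P ≤ CD * ix M * Nr (det u v : k) := hD2 u hu v hv h
        _ = _ := by ring)
    (by
      intro u hu
      obtain ⟨q1, q2, q3, -⟩ := hq r m s x y u hr hRg hu
      have e0 : (ix M : ℂ) * qn x y u / ((dk k * ix M : ℕ) : ℂ) ^ (2 * dg k) =
          (((ix M : ℝ) / P : ℝ) : ℂ) * qn x y u := by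
        rw [hP]
        push_cast
        ring
      have e1 : ((ix M : ℂ) * qn x y u / ((dk k * ix M : ℕ) : ℂ) ^ (2 * dg k)).re =
          (ix M : ℝ) / P * (qn x y u).re := by
        rw [e0, Complex.re_ofReal_mul]
      have e2 : ((ix M : ℂ) * qn x y u / ((dk k * ix M : ℕ) : ℂ) ^ (2 * dg k)).im =
          (ix M : ℝ) / P * (qn x y u).im := by
        rw [e0, Complex.im_ofReal_mul]
      have hfac : 0 < (ix M : ℝ) / P := div_pos hixp hPp
      simp only [e1, e2, hTm]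
      refine ⟨mul_pos hfac q1, ?_, ?_⟩
      · rw [abs_mul, abs_of_pos hfac]
        calc 10 * Tm m s * ((ix M : ℝ) / P * |(qn x y u).im|) =
            (ix M : ℝ) / P * (10 * Tm m s * |(qn x y u).im|) := by ring
          _ ≤ _ := mul_le_mul_of_nonneg_left q2 hfac.le
      · calc c * (nn r u / (P / ix M)) = (ix M : ℝ) / P * (c * nn r u) := by
              field_simp
          _ ≤ _ := mul_le_mul_of_nonneg_left q3 hfac.le) ha
  have hX : P / ix M / mn r (du M) ≤ CD * (ix M / mn r M) := by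
    have h1 : mn r M * P ≤ CD * (ix M : ℝ) ^ 2 * mn r (du M) := by
      rw [← hu1n]
      exact hD1 r hr u1 hu1M hu1
    rw [div_div, div_le_iff₀ (mul_pos hixp hmn1)]
    have h2 : CD * (ix M / mn r M) * (ix M * mn r (du M)) =
        CD * (ix M : ℝ) ^ 2 * mn r (du M) / mn r M := by ring
    rw [h2, le_div_iff₀ hmn]
    linarith
  have hX2 : (P / ix M / mn r (du M)) ^ (1 / 2 + 2 * κ) ≤
      CD ^ (1 / 2 + 2 * κ) * (ix M / mn r M) ^ (1 / 2 + 2 * κ) := by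
    rw [← Real.mul_rpow (by linarith) (by positivity)]
    exact Real.rpow_le_rpow (by positivity) hX (by linarith)
  have hdk1 : ‖((1 / dk k : ℝ) : ℂ)‖ ≤ 1 := by
    rw [Complex.norm_real, Real.norm_eq_abs, abs_of_nonneg (by positivity),
      div_le_one hdk]
    have : dk k ≠ 0 := by
      unfold dk
      exact Int.natAbs_ne_zero.2 (discr_ne_zero k)
    exact_mod_cast Nat.one_le_iff_ne_zero.2 this
  rw [hht'] at s2
  unfold Em
  refine (norm_add_le _ _).trans ?_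
  rw [norm_mul]
  have s3 := mul_le_mul hdk1 s2 (norm_nonneg _) zero_le_one
  rw [one_mul] at s3
  refine (add_le_add s1 s3).trans ?_
  have hA : 0 ≤ C * CK * hm j m s * (c ^ (-(1 / 2 + 2 * κ)) * c ^ (-(3 : ℝ))) := by positivity
  have s4 : C * CK * hm j m s * (c ^ (-(1 / 2 + 2 * κ)) * c ^ (-(3 : ℝ))) *
      (CL' * (P / ix M / mn r (du M)) ^ (1 / 2 + 2 * κ)) ≤
      C * CK * hm j m s * (c ^ (-(1 / 2 + 2 * κ)) * c ^ (-(3 : ℝ))) *
      (CL' * (CD ^ (1 / 2 + 2 * κ) * (ix M / mn r M) ^ (1 / 2 + 2 * κ))) :=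
    mul_le_mul_of_nonneg_left (mul_le_mul_of_nonneg_left hX2 (by linarith)) hA
  refine (add_le_add le_rfl s4).trans (le_of_eq ?_)
  ring

end Pool.Agent.H77.CMC
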