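import Pool.Agent.H77.CMC.ECB

/-!
# Stage 2, row E_ECC: the Epstein zeta functions with the angular factor are holomorphic along
holomorphic curves of parameters
-/

set_option autoImplicit false

open MeasureTheory Set Filter NumberField NumberField.InfinitePlace
open Pool.Agent.H65.CM4 Pool.Agent.H65.CMC Pool.Agent.H89.CM4 Pool.Agent.H89.CMC
open scoped Real

namespace Pool.Agent.H77.CMC

variable (k : Type) [Field k] [NumberField k] [IsTotallyReal k]

omit [IsTotallyReal k] in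
theorem ECC_isOpen (B K r T : ℝ) (X Y : ℂ → Pl k → ℂ) (hX : ∀ v, Differentiable ℂ (fun w => X w v))
    (hY : ∀ v, Differentiable ℂ (fun w => Y w v)) : IsOpen {w : ℂ | Rm B K r T (X w) (Y w)} := by
  have e : {w : ℂ | Rm B K r T (X w) (Y w)} = ⋂ v : Pl k,
      ({w | |(X w v).re| < B * r} ∩ ({w | r / B < (Y w v).re} ∩ ({w | (Y w v).re < B * r} ∩
        ({w | K * T * |(X w v).im| < r} ∩ {w | K * T * |(Y w v).im| < r})))) := by
    ext w
    simp only [mem_iInter]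
    rfl
  rw [e]
  refine isOpen_iInter_of_finite fun v => ?_
  have hx : Continuous fun w => (X w v).re := Complex.continuous_re.comp (hX v).continuous
  have hy : Continuous fun w => (Y w v).re := Complex.continuous_re.comp (hY v).continuous
  have hx' : Continuous fun w => (X w v).im := Complex.continuous_im.comp (hX v).continuous
  have hy' : Continuous fun w => (Y w v).im := Complex.continuous_im.comp (hY v).continuous
  exact (isOpen_lt hx.abs continuous_const).inter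
    ((isOpen_lt continuous_const hy).inter ((isOpen_lt hy continuous_const).inter
      ((isOpen_lt (continuous_const.mul hx'.abs) continuous_const).inter
        (isOpen_lt (continuous_const.mul hy'.abs) continuous_const))))

omit [NumberField k] [IsTotallyReal k] in
theorem ECC_ne {B K r T : ℝ} {x y : Pl k → ℂ} (hB : 1 ≤ B) (hr : 0 < r) (h : Rm B K r T x y)
    (v : Pl k) : y v ≠ 0 := by
  intro h0
  have h1 := (h v).2.1
  rw [h0, Complex.zero_re] at h1
  have : 0 < r / B := by positivity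
  linarith

theorem ECC_qn (X Y : ℂ → Pl k → ℂ) (hX : ∀ v, Differentiable ℂ (fun w => X w v))
    (hY : ∀ v, Differentiable ℂ (fun w => Y w v)) (u : V2 k) (w : ℂ) (h : ∀ v, Y w v ≠ 0) :
    DifferentiableAt ℂ (fun w => qn (X w) (Y w) u) w := by
  unfold qn
  apply DifferentiableAt.fun_finsetProd
  intro v _
  unfold qc
  have h1 : DifferentiableAt ℂ (fun w => X w v) w := hX v w
  have h2 : DifferentiableAt ℂ (fun w => Y w v) w := hY v w
  have h3 : (2 : ℂ) * Y w v ≠ 0 := mul_ne_zero two_ne_zero (h v)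
  exact (((h1.const_mul _).const_add _).pow 2 |>.add ((h2.const_mul _).pow 2)).div
    (h2.const_mul 2) h3

theorem ECC_an (m : Pl k → ℤ) (X Y : ℂ → Pl k → ℂ) (hX : ∀ v, Differentiable ℂ (fun w => X w v))
    (hY : ∀ v, Differentiable ℂ (fun w => Y w v)) (u : V2 k) (w : ℂ)
    (h : ∀ v : Pl k, (rv v (u.1 : k) : ℂ) + rv v (u.2 : k) * (X w v - Complex.I * Y w v) ≠ 0 ∧
      (rv v (u.1 : k) : ℂ) + rv v (u.2 : k) * (X w v + Complex.I * Y w v) ≠ 0) :
    DifferentiableAt ℂ (fun w => an m (X w) (Y w) u) w := by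
  unfold an
  apply DifferentiableAt.fun_finsetProd
  intro v _
  unfold ac
  have h1 : DifferentiableAt ℂ (fun w => X w v) w := hX v w
  have h2 : DifferentiableAt ℂ (fun w => Y w v) w := hY v w
  have h3 : DifferentiableAt ℂ (fun w => (rv v (u.1 : k) : ℂ) +
      rv v (u.2 : k) * (X w v + Complex.I * Y w v)) w :=
    ((h1.add (h2.const_mul _)).const_mul _).const_add _
  have h4 : DifferentiableAt ℂ (fun w => (rv v (u.1 : k) : ℂ) +
      rv v (u.2 : k) * (X w v - Complex.I * Y w v)) w :=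
    ((h1.sub (h2.const_mul _)).const_mul _).const_add _
  have h5 : DifferentiableAt ℂ (fun w => ((rv v (u.1 : k) : ℂ) +
      rv v (u.2 : k) * (X w v + Complex.I * Y w v)) / ((rv v (u.1 : k) : ℂ) +
      rv v (u.2 : k) * (X w v - Complex.I * Y w v))) w := h3.div h4 (h v).1
  exact h5.zpow (Or.inl (div_ne_zero (h v).2 (h v).1))

open Classical in
theorem ECC_sum (hKCB : T_KCBm k) (hKCD : T_KCDm k) (hLSM : T_LSM k)
    {B K c C : ℝ} (hB : 1 ≤ B) (hc : 0 < c) (hc1 : c ≤ 1) (hC : 1 ≤ C)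
    (hQ : ∀ (r : ℝ) (m : Pl k → ℤ) (s : ℂ) (x y : Pl k → ℂ) (u : V2 k), 0 < r →
      Rm B K r (Tm m s) x y → u ≠ 0 →
      0 < (qn x y u).re ∧ 10 * Tm m s * |(qn x y u).im| ≤ (qn x y u).re ∧
        c * nn r u ≤ (qn x y u).re ∧ (qn x y u).re ≤ C * nn r u ∧ ‖an m x y u‖ ≤ C ∧
        ∀ v : Pl k, (rv v (u.1 : k) : ℂ) + rv v (u.2 : k) * (x v - Complex.I * y v) ≠ 0 ∧
          (rv v (u.1 : k) : ℂ) + rv v (u.2 : k) * (x v + Complex.I * y v) ≠ 0)
    (r p C₁ : ℝ) (m : Pl k → ℤ) (M : La k) (s : ℂ) (X Y : ℂ → Pl k → ℂ) (ζ : ℂ) (hr : 0 < r)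
    (hM : ix M ≠ 0) (hh : 0 < p) (hC₁ : 1 ≤ C₁) (hhm : ∀ j : ℕ, 0 < hm j m s)
    (hdet : ∀ u ∈ M, ∀ v ∈ M, det u v ≠ 0 → p ≤ C₁ * Nr (det u v : k))
    (hs : |s.re - 1 / 2| ≤ 1 / 8) (hX : ∀ v, Differentiable ℂ (fun w => X w v))
    (hY : ∀ v, Differentiable ℂ (fun w => Y w v)) (hζ : Rm B K r (Tm m s) (X ζ) (Y ζ)) :
    DifferentiableAt ℂ (fun w => ∑' u : V2 k, if u ∈ M ∧ u ∈ Fo k then
      an m (X w) (Y w) u * Km m s (qn (X w) (Y w) u / (p : ℂ)) else 0) ζ := by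
  obtain ⟨C2, j, hC2, hK⟩ := hKCB (1 / 8) (by norm_num) le_rfl
  obtain ⟨C3, hC3, hS⟩ := hLSM (1 / 8) C₁ (by norm_num) le_rfl hC₁
  obtain ⟨hsum, -⟩ := hS r p M hr hM hh hdet
  set a : ℝ := 1 / 2 + 2 * (1 / 8) with ha
  set D : ℝ := C * (C2 * hm j m s * (c ^ (-a) * c ^ (-(3 : ℝ)))) with hD
  have hht : 0 < hm j m s := hhm j
  set g : V2 k → ℝ := fun u => if u ∈ M ∧ u ∈ Fo k then
      (nn r u / p) ^ (-a) * (1 + nn r u / p) ^ (-(3 : ℝ)) else 0 with hg
  have hMg : Summable fun v => D * g v := hsum.mul_left D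
  have harg : ∀ (w : ℂ) (u : V2 k), Rm B K r (Tm m s) (X w) (Y w) → u ≠ 0 →
      0 < (qn (X w) (Y w) u / (p : ℂ)).re ∧
        10 * Tm m s * |(qn (X w) (Y w) u / (p : ℂ)).im| ≤ (qn (X w) (Y w) u / (p : ℂ)).re ∧
        c * (nn r u / p) ≤ (qn (X w) (Y w) u / (p : ℂ)).re := by
    intro w u hw hu
    obtain ⟨h1, h2, h3, -⟩ := hQ r m s _ _ u hr hw hu
    rw [Complex.div_ofReal_re, Complex.div_ofReal_im]
    refine ⟨by positivity, ?_, ?_⟩
    · rw [abs_div, abs_of_pos hh, ← mul_div_assoc]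
      gcongr
    · rw [← mul_div_assoc]
      gcongr
  have hbd : ∀ (u : V2 k) (w : ℂ), w ∈ {w : ℂ | Rm B K r (Tm m s) (X w) (Y w)} →
      ‖(if u ∈ M ∧ u ∈ Fo k then an m (X w) (Y w) u * Km m s (qn (X w) (Y w) u / (p : ℂ))
        else 0 : ℂ)‖ ≤ D * g u := by
    intro u w hw
    by_cases hv : u ∈ M ∧ u ∈ Fo k
    · rw [if_pos hv]
      have hu0 : u ≠ 0 := hv.2.1
      obtain ⟨h1, h2, h3⟩ := harg w u hw hu0
      have h7 : ‖an m (X w) (Y w) u‖ ≤ C := (hQ r m s _ _ u hr hw hu0).2.2.2.2.1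
      set z := qn (X w) (Y w) u / (p : ℂ) with hz
      have h4 := hK m s z hs h1 h2
      have hnn : 0 < nn r u := nn_pos k hr hu0
      have hw0 : 0 < nn r u / p := div_pos hnn hh
      have h5 := weight_le a c z.re (nn r u / p) (by rw [ha]; norm_num) hc hc1 hw0 h3
      have hgv : g u = (nn r u / p) ^ (-a) * (1 + nn r u / p) ^ (-(3 : ℝ)) := by
        rw [hg]
        exact if_pos hv
      have h6 : ‖Km m s z‖ ≤ C2 * hm j m s * (c ^ (-a) * c ^ (-(3 : ℝ)) * g u) := by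
        rw [hgv]
        calc ‖Km m s z‖ ≤ C2 * hm j m s * (z.re ^ (-a) * (1 + z.re) ^ (-(3 : ℝ))) := by
              rw [← mul_assoc]; exact h4
          _ ≤ _ := mul_le_mul_of_nonneg_left h5 (mul_nonneg hC2 hht.le)
      rw [norm_mul, hD]
      calc ‖an m (X w) (Y w) u‖ * ‖Km m s z‖ ≤
            C * (C2 * hm j m s * (c ^ (-a) * c ^ (-(3 : ℝ)) * g u)) :=
            mul_le_mul h7 h6 (norm_nonneg _) (by linarith)
        _ = _ := by ring
    · rw [if_neg hv, norm_zero]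
      have : g u = 0 := by
        rw [hg]
        exact if_neg hv
      rw [this, mul_zero]
  have hU := ECC_isOpen k B K r (Tm m s) X Y hX hY
  have h := Complex.differentiableOn_tsum_of_summable_norm
    (F := fun (u : V2 k) (w : ℂ) =>
      (if u ∈ M ∧ u ∈ Fo k then an m (X w) (Y w) u * Km m s (qn (X w) (Y w) u / (p : ℂ))
        else 0 : ℂ)) hMg ?_ hU hbd
  · exact h.differentiableAt (hU.mem_nhds hζ)
  · intro u
    by_cases hv : u ∈ M ∧ u ∈ Fo k
    · simp only [if_pos hv]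
      intro w hw
      obtain ⟨h1, h2, -⟩ := harg w u hw hv.2.1
      have h3 := hKCD m s _ hs h1 h2
      have h4 : DifferentiableAt ℂ (fun w => qn (X w) (Y w) u / (p : ℂ)) w :=
        (ECC_qn k X Y hX hY u w (fun v => ECC_ne k hB hr hw v)).div_const _
      have h5 : DifferentiableAt ℂ (fun w => an m (X w) (Y w) u) w :=
        ECC_an k m X Y hX hY u w (hQ r m s _ _ u hr hw hv.2.1).2.2.2.2.2
      have h6 : DifferentiableAt ℂ (fun w => Km m s (qn (X w) (Y w) u / (p : ℂ))) w :=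
        DifferentiableAt.comp (g := fun z => Km m s z) w h3 h4
      exact (h5.mul h6).differentiableWithinAt
    · simp only [if_neg hv]
      exact differentiableOn_const _

theorem pf_ECCm (hKCB : T_KCBm k) (hKCD : T_KCDm k) (hQCM : T_QCM k) (hLSM : T_LSM k)
    (hBIX : T_BIX k) (hDUL : T_DUL k) (_hMIN : T_MIN k) (hTMB : T_TMB k) : T_ECCm k := by
  classical
  intro B hB
  obtain ⟨K, c, C, hK, hc, hc1, hC, hQ⟩ := hQCM B hB
  obtain ⟨CD, hCD, hD⟩ := hDUL
  refine ⟨K, hK, ?_⟩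
  intro r m M s X Y ζ hr hM hs hX hY hζ
  have hp : (0 : ℝ) < ix M := by exact_mod_cast Nat.pos_of_ne_zero hM
  have hdk : (0 : ℝ) < dk k := by
    have : dk k ≠ 0 := by
      unfold dk
      exact Int.natAbs_ne_zero.2 (discr_ne_zero k)
    exact_mod_cast Nat.pos_of_ne_zero this
  obtain ⟨hD1, -, hD3⟩ := hD M hM
  obtain ⟨-, -, -, -, hTm, hhm⟩ := hTMB m s
  obtain ⟨-, -, -, -, -, hhm'⟩ := hTMB m (1 - s)
  have h1 := ECC_sum k hKCB hKCD hLSM hB hc hc1 hC hQ r (ix M) 1 m M s X Y ζ hr hM hp le_rfl hhm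
    (fun u hu v hv huv => by rw [one_mul]; exact hBIX.1 M hM u hu v hv huv) hs hX hY hζ
  set m2 : ℝ := ((dk k * ix M : ℕ) : ℝ) ^ (2 * dg k) / ix M with hm2
  have hm2p : 0 < m2 := by
    rw [hm2]
    push_cast
    positivity
  have hre : |(1 - s).re - 1 / 2| ≤ 1 / 8 := by
    rw [Complex.sub_re, Complex.one_re]
    have : (1 - s.re - 1 / 2) = -(s.re - 1 / 2) := by ring
    rw [this, abs_neg]
    exact hs
  have h2 := ECC_sum k hKCB hKCD hLSM hB hc hc1 hC hQ r m2 CD m (du M) (1 - s) X Y ζ hr hD1 hm2p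
    hCD hhm' (fun u hu v hv huv => by
      rw [hm2, div_le_iff₀ hp]
      have := hD3 u hu v hv huv
      linarith) hre hX hY (by rw [hTm]; exact hζ)
  have h3 := h1.add (h2.const_mul ((1 / dk k : ℝ) : ℂ))
  refine h3.congr_of_eventuallyEq (Eventually.of_forall fun w => ?_)
  have e : ∀ u : V2 k, (ix M : ℂ) * qn (X w) (Y w) u / ((dk k * ix M : ℕ) : ℂ) ^ (2 * dg k) =
      qn (X w) (Y w) u / (m2 : ℂ) := by
    intro u
    have hmC : (ix M : ℂ) ≠ 0 := by exact_mod_cast hp.ne'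
    have hdC : (((dk k * ix M : ℕ) : ℂ)) ^ (2 * dg k) ≠ 0 := by
      apply pow_ne_zero
      exact_mod_cast (mul_pos hdk hp).ne'
    rw [hm2]
    push_cast
    push_cast at hdC
    field_simp
  simp only [Em, e]
  rfl

end Pool.Agent.H77.CMC
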